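import Pool.Agent.P.MP_ae3328_an.Resid

set_option autoImplicit false
set_option linter.dupNamespace false

namespace Pool.Agent.Results.MP_ae3328_an.GenericPoints

/-- There is a separable real Banach space `X` with nonseparable dual such that, for every nonzero
closed subspace `Y`, the restriction of the norm of `X` to `Y` is Frechet differentiable at every
point of a dense `Gδ` subset of `Y`. -/
theorem result :
    ∃ (X : Type) (_ : NormedAddCommGroup X) (_ : NormedSpace ℝ X) (_ : CompleteSpace X)
      (_ : TopologicalSpace.SeparableSpace X),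
      ¬ TopologicalSpace.SeparableSpace (X →L[ℝ] ℝ) ∧
      ∀ Y : Submodule ℝ X, IsClosed (Y : Set X) → Y ≠ ⊥ →
        ∃ G : Set Y, IsGδ G ∧ Dense G ∧
          ∀ y ∈ G, DifferentiableAt ℝ (fun z : Y => ‖z‖) y :=
  ⟨Pool.Agent.P.MP_ae3328_an.X, inferInstance, inferInstance, inferInstance, inferInstance,
    Pool.Agent.P.MP_ae3328_an.not_separable_dual,
    Pool.Agent.P.MP_ae3328_an.generically_differentiable⟩

end Pool.Agent.Results.MP_ae3328_an.GenericPoints
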